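import Mathlib

/-!
# Facets with a good set: definitions

`G` is the finite set of exponents of a compact face (of any dimension) of a Newton polyhedron.
-/

noncomputable section

namespace MPb07157F

open Finset

variable {n : ℕ}

/-- The exponent `v` as a rational vector. -/
def qv (v : Fin n →₀ ℕ) : Fin n → ℚ := fun j => (v j : ℚ)

/-- The pairing of a rational form with an exponent. -/
def qd (h : Fin n → ℚ) (v : Fin n →₀ ℕ) : ℚ := ∑ j, h j * (v j : ℚ)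

/-- The pairing of an integral form with an exponent. -/
def zd (h : Fin n → ℤ) (v : Fin n →₀ ℕ) : ℤ := ∑ j, h j * (v j : ℤ)

/-- The exponents of `G` that are not zero on `J`, as rational vectors. -/
def onS (G : Finset (Fin n →₀ ℕ)) (J : Finset (Fin n)) : Set (Fin n → ℚ) :=
  {x | ∃ v ∈ G, (∃ j ∈ J, v j ≠ 0) ∧ x = qv v}

/-- A good set `ρ` with coefficients `γ` that meets the relative interior of the face. -/
structure Good (G ρ : Finset (Fin n →₀ ℕ)) (γ : (Fin n →₀ ℕ) → ℚ) : Prop where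
  sub : ρ ⊆ G
  lin : ∀ g : (Fin n →₀ ℕ) → ℚ, (∀ j, ∑ v ∈ ρ, g v * (v j : ℚ) = 0) → ∀ v ∈ ρ, g v = 0
  one : ∀ j, ∑ v ∈ ρ, γ v * (v j : ℚ) = 1
  tw : ∀ j, (∃ v ∈ ρ, (∀ m : ℕ, γ v ≠ m + 1) ∧ 0 < v j) ∨ ∃ j', j' ≠ j ∧ ∀ v ∈ ρ, v j' = v j
  ri : ∀ h : Fin n → ℚ, (∀ v ∈ ρ, qd h v = 0) → (∀ v ∈ G, 0 ≤ qd h v) → ∀ v ∈ G, qd h v = 0

/-- The face of `G` on which the integral form `ω` is minimal. -/
def fc (G : Finset (Fin n →₀ ℕ)) (ω : Fin n → ℤ) : Finset (Fin n →₀ ℕ) :=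
  G.filter fun v => ∀ u ∈ G, zd ω v ≤ zd ω u

/-- The value at `ξ` of the polynomial with exponents `G` and coefficients `c`. -/
def ev (G : Finset (Fin n →₀ ℕ)) (c : (Fin n →₀ ℕ) → ℂ) (ξ : Fin n → ℂ) : ℂ :=
  ∑ v ∈ G, c v * ∏ j, ξ j ^ v j

/-- The value at `ξ` of the logarithmic derivative `θ_l`. -/
def evθ (G : Finset (Fin n →₀ ℕ)) (c : (Fin n →₀ ℕ) → ℂ) (l : Fin n) (ξ : Fin n → ℂ) : ℂ :=
  ∑ v ∈ G, c v * (v l : ℂ) * ∏ j, ξ j ^ v j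

/-- Non-degeneracy on all faces. -/
def NDf (G : Finset (Fin n →₀ ℕ)) (c : (Fin n →₀ ℕ) → ℂ) : Prop :=
  ∀ (ω : Fin n → ℤ) (ξ : Fin n → ℂ), (∀ j, ξ j ≠ 0) → ev (fc G ω) c ξ = 0 →
    ∃ l, evθ (fc G ω) c l ξ ≠ 0

end MPb07157F
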