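import Pool.Agent.Lib.MP_b07157_agF.FD
import Pool.Agent.Lib.MP_b07157_ag.LC.Farkas

/-!
# F1. Strong duality for the linear program
-/

noncomputable section

namespace MPb07157F

open Finset

variable {n : ℕ}

theorem sum_qd {G : Finset (Fin n →₀ ℕ)} (lam : (Fin n →₀ ℕ) → ℚ) (y : Fin n → ℚ) :
    ∑ v ∈ G, lam v * qd y v = ∑ j, y j * ∑ v ∈ G, lam v * (v j : ℚ) := by
  unfold qd
  simp only [Finset.mul_sum]
  rw [Finset.sum_comm]
  exact Finset.sum_congr rfl fun j _ => Finset.sum_congr rfl fun v _ => by ring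

theorem lin_expand {ι : Type} [Fintype ι] [DecidableEq ι] (f : (ι → ℚ) →ₗ[ℚ] ℚ) (x : ι → ℚ) :
    f x = ∑ i, x i * f (Pi.single i 1) := by
  conv_lhs => rw [← Finset.univ_sum_single x]
  rw [map_sum]
  refine Finset.sum_congr rfl fun i _ => ?_
  have : (Pi.single i (x i) : ι → ℚ) = x i • Pi.single i (1 : ℚ) := by
    rw [← Pi.single_smul, smul_eq_mul, mul_one]
  rw [this, map_smul, smul_eq_mul]

/-- F1a. Strong duality.

Proof.  `MPb07157.LC.farkas_aff` (or `farkas`) for the affine conditions on `(y, lam)`: `y j ≥ 0`,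
`1 - qd y v ≥ 0`, `lam v ≥ 0` (`v ∈ G`), `∑ lam v * v j - ℓ j ≥ 0`, `∑ ℓ j * y j - ∑ lam v ≥ 0`.  A
certificate of infeasibility consists of `p v ≥ 0`, `q j ≥ 0`, `t ≥ 0` with
`∑ p v * v j ≥ t * ℓ j`, `∑ q j * v j ≤ t` (`v ∈ G`) and `∑ p v < ∑ q j * ℓ j`.  Then
`t * ∑ q j ℓ j ≤ ∑ p v (q · v) ≤ t * ∑ p v`, so `t = 0`; then `q · v ≤ 0` for `v ∈ G`, with
`q, v ≥ 0`, so `q j = 0` for all `j` (`hG`), and `∑ p v < 0`: contradiction. -/
theorem lp_dual (G : Finset (Fin n →₀ ℕ)) (hG : ∀ j, ∃ v ∈ G, v j ≠ 0) (ℓ : Fin n → ℚ) :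
    ∃ (y : Fin n → ℚ) (lam : (Fin n →₀ ℕ) → ℚ), y ∈ Ys G ∧ (∀ v ∈ G, 0 ≤ lam v) ∧
      (∀ j, ℓ j ≤ ∑ v ∈ G, lam v * (v j : ℚ)) ∧ ∑ v ∈ G, lam v ≤ ∑ j, ℓ j * y j := by
  classical
  let GT := {v : Fin n →₀ ℕ // v ∈ G}
  let W := (Fin n → ℚ) × (GT → ℚ)
  let J := Fin n ⊕ (GT ⊕ (GT ⊕ (Fin n ⊕ Unit)))
  let a : J → W := Sum.elim (fun j => (Pi.single j 1, 0)) (Sum.elim
    (fun v => (fun j => -(v.1 j : ℚ), 0)) (Sum.elim (fun v => (0, Pi.single v 1)) (Sum.elim
      (fun j => (0, fun v => (v.1 j : ℚ))) (fun _ => (ℓ, fun _ => -1)))))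
  let h : J → ℚ := Sum.elim (fun _ => 0) (Sum.elim (fun _ => 1) (Sum.elim (fun _ => 0)
    (Sum.elim (fun j => -ℓ j) (fun _ => 0))))
  rcases MPb07157.LC.farkas_aff (⊥ : Submodule ℚ W) (Finset.univ : Finset J) ∅ a h with
    ⟨u, -, hu, -⟩ | ⟨s, r, hs, hU, hneg⟩
  · -- a solution
    let y : Fin n → ℚ := fun j => u (Pi.single j 1, 0)
    let lam' : GT → ℚ := fun v => u (0, Pi.single v 1)
    have hu1 : ∀ x : Fin n → ℚ, u (x, 0) = ∑ j, x j * y j := fun x =>
      lin_expand (u.comp (LinearMap.inl ℚ (Fin n → ℚ) (GT → ℚ))) x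
    have hu2 : ∀ x : GT → ℚ, u (0, x) = ∑ v, x v * lam' v := fun x =>
      lin_expand (u.comp (LinearMap.inr ℚ (Fin n → ℚ) (GT → ℚ))) x
    let lam : (Fin n →₀ ℕ) → ℚ := fun v => if hv : v ∈ G then lam' ⟨v, hv⟩ else 0
    have hlam : ∀ v : GT, lam v.1 = lam' v := fun v => by
      simp only [lam]
      rw [dif_pos v.2]
    have hsum : ∀ F : (Fin n →₀ ℕ) → ℚ, ∑ v ∈ G, F v = ∑ v : GT, F v.1 := fun F =>
      (Finset.sum_coe_sort G F).symm
    refine ⟨y, lam, ⟨fun j => ?_, fun v hv => ?_⟩, fun v hv => ?_, fun j => ?_, ?_⟩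
    · have := hu (Sum.inl j) (Finset.mem_univ _)
      simp only [a, h, Sum.elim_inl, add_zero] at this
      exact this
    · have := hu (Sum.inr (Sum.inl ⟨v, hv⟩)) (Finset.mem_univ _)
      simp only [a, h, Sum.elim_inl, Sum.elim_inr] at this
      rw [hu1] at this
      unfold qd
      have h2 : ∑ j, -(v j : ℚ) * y j = - ∑ j, y j * (v j : ℚ) := by
        rw [← Finset.sum_neg_distrib]
        exact Finset.sum_congr rfl fun j _ => by ring
      rw [h2] at this
      linarith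
    · have := hu (Sum.inr (Sum.inr (Sum.inl ⟨v, hv⟩))) (Finset.mem_univ _)
      simp only [a, h, Sum.elim_inl, Sum.elim_inr, add_zero] at this
      have h3 := hlam ⟨v, hv⟩
      simp only at h3
      rw [h3]
      exact this
    · have := hu (Sum.inr (Sum.inr (Sum.inr (Sum.inl j)))) (Finset.mem_univ _)
      simp only [a, h, Sum.elim_inl, Sum.elim_inr] at this
      rw [hu2] at this
      rw [hsum]
      have h2 : ∑ v : GT, (v.1 j : ℚ) * lam' v = ∑ v : GT, lam v.1 * (v.1 j : ℚ) :=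
        Finset.sum_congr rfl fun v _ => by rw [hlam, mul_comm]
      rw [h2] at this
      linarith
    · have := hu (Sum.inr (Sum.inr (Sum.inr (Sum.inr ())))) (Finset.mem_univ _)
      simp only [a, h, Sum.elim_inr, add_zero] at this
      have hx : ((ℓ, fun _ => -1) : W) = (ℓ, 0) + (0, fun _ => -1) := by simp
      rw [hx, map_add, hu1, hu2] at this
      rw [hsum]
      have h2 : ∑ v : GT, (-1 : ℚ) * lam' v = - ∑ v : GT, lam v.1 := by
        rw [← Finset.sum_neg_distrib]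
        exact Finset.sum_congr rfl fun v _ => by rw [hlam]; ring
      rw [h2] at this
      linarith
  · -- a certificate
    exfalso
    rw [Finset.sum_empty, add_zero] at hU hneg
    rw [Submodule.mem_bot] at hU
    set t := s (Sum.inr (Sum.inr (Sum.inr (Sum.inr ())))) with ht
    set p : GT → ℚ := fun v => s (Sum.inr (Sum.inl v)) with hp
    set q : Fin n → ℚ := fun j => s (Sum.inr (Sum.inr (Sum.inr (Sum.inl j)))) with hq
    have ht0 : 0 ≤ t := hs _ (Finset.mem_univ _)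
    have hp0 : ∀ v, 0 ≤ p v := fun v => hs _ (Finset.mem_univ _)
    have hq0 : ∀ j, 0 ≤ q j := fun j => hs _ (Finset.mem_univ _)
    have e1 : ∀ j, s (Sum.inl j) + (∑ v, p v * -(v.1 j : ℚ)) + t * ℓ j = 0 := by
      intro j
      let L : W →ₗ[ℚ] ℚ := (LinearMap.proj j).comp (LinearMap.fst ℚ (Fin n → ℚ) (GT → ℚ))
      have h1 : ∑ e, s e * (a e).1 j = 0 := by
        have h0 := congrArg L hU
        rw [map_sum, map_zero] at h0
        exact h0
      rw [Fintype.sum_sum_type, Fintype.sum_sum_type, Fintype.sum_sum_type,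
        Fintype.sum_sum_type] at h1
      have h2 : ∑ i, s (Sum.inl i) * (a (Sum.inl i)).1 j = s (Sum.inl j) := by
        rw [Finset.sum_eq_single j]
        · change s (Sum.inl j) * (Pi.single j 1 : Fin n → ℚ) j = _
          rw [Pi.single_eq_same, mul_one]
        · intro i _ hi
          change s (Sum.inl i) * (Pi.single i 1 : Fin n → ℚ) j = 0
          rw [Pi.single_eq_of_ne hi.symm, mul_zero]
        · intro hx
          exact absurd (Finset.mem_univ j) hx
      have h3 : ∑ v : GT, s (Sum.inr (Sum.inr (Sum.inl v))) *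
          (a (Sum.inr (Sum.inr (Sum.inl v)))).1 j = 0 :=
        Finset.sum_eq_zero fun v _ => mul_zero _
      have h4 : ∑ i : Fin n, s (Sum.inr (Sum.inr (Sum.inr (Sum.inl i)))) *
          (a (Sum.inr (Sum.inr (Sum.inr (Sum.inl i))))).1 j = 0 :=
        Finset.sum_eq_zero fun v _ => mul_zero _
      have h5 : ∑ i : Unit, s (Sum.inr (Sum.inr (Sum.inr (Sum.inr i)))) *
          (a (Sum.inr (Sum.inr (Sum.inr (Sum.inr i))))).1 j = t * ℓ j := by
        rw [Finset.univ_unique, Finset.sum_singleton]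
        rfl
      rw [h2, h3, h4, h5, zero_add, zero_add, ← add_assoc] at h1
      exact h1
    have e2 : ∀ v : GT, s (Sum.inr (Sum.inr (Sum.inl v))) + (∑ j, q j * (v.1 j : ℚ)) - t = 0 := by
      intro v
      let L : W →ₗ[ℚ] ℚ := (LinearMap.proj v).comp (LinearMap.snd ℚ (Fin n → ℚ) (GT → ℚ))
      have h1 : ∑ e, s e * (a e).2 v = 0 := by
        have h0 := congrArg L hU
        rw [map_sum, map_zero] at h0
        exact h0
      rw [Fintype.sum_sum_type, Fintype.sum_sum_type, Fintype.sum_sum_type,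
        Fintype.sum_sum_type] at h1
      have h2 : ∑ i : GT, s (Sum.inr (Sum.inr (Sum.inl i))) *
          (a (Sum.inr (Sum.inr (Sum.inl i)))).2 v = s (Sum.inr (Sum.inr (Sum.inl v))) := by
        rw [Finset.sum_eq_single v]
        · change s _ * (Pi.single v 1 : GT → ℚ) v = _
          rw [Pi.single_eq_same, mul_one]
        · intro i _ hi
          change s _ * (Pi.single i 1 : GT → ℚ) v = 0
          rw [Pi.single_eq_of_ne hi.symm, mul_zero]
        · intro hx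
          exact absurd (Finset.mem_univ v) hx
      have h3 : ∑ i : Fin n, s (Sum.inl i) * (a (Sum.inl i)).2 v = 0 :=
        Finset.sum_eq_zero fun v _ => mul_zero _
      have h4 : ∑ i : GT, s (Sum.inr (Sum.inl i)) * (a (Sum.inr (Sum.inl i))).2 v = 0 :=
        Finset.sum_eq_zero fun v _ => mul_zero _
      have h5 : ∑ i : Unit, s (Sum.inr (Sum.inr (Sum.inr (Sum.inr i)))) *
          (a (Sum.inr (Sum.inr (Sum.inr (Sum.inr i))))).2 v = t * -1 := by
        rw [Finset.univ_unique, Finset.sum_singleton]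
        rfl
      rw [h2, h3, h4, h5, zero_add, zero_add] at h1
      have h6 : s (Sum.inr (Sum.inr (Sum.inl v))) + ((∑ j, q j * (v.1 j : ℚ)) + t * -1) = 0 := h1
      linarith
    have e3 : ∑ v, p v < ∑ j, q j * ℓ j := by
      simp only [J, Fintype.sum_sum_type, h, Sum.elim_inl, Sum.elim_inr, mul_zero, mul_one,
        Finset.sum_const_zero, zero_add, add_zero] at hneg
      have h2 : ∑ j, q j * -ℓ j = - ∑ j, q j * ℓ j := by
        rw [← Finset.sum_neg_distrib]
        exact Finset.sum_congr rfl fun j _ => by ring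
      have h3 : ∑ v, p v + ∑ j, q j * -ℓ j < 0 := hneg
      linarith
    have e1' : ∀ j, t * ℓ j ≤ ∑ v, p v * (v.1 j : ℚ) := by
      intro j
      have h1 := e1 j
      have h2 : ∑ v, p v * -(v.1 j : ℚ) = - ∑ v, p v * (v.1 j : ℚ) := by
        rw [← Finset.sum_neg_distrib]
        exact Finset.sum_congr rfl fun j _ => by ring
      have h3 : 0 ≤ s (Sum.inl j) := hs _ (Finset.mem_univ _)
      linarith
    have e2' : ∀ v : GT, ∑ j, q j * (v.1 j : ℚ) ≤ t := by
      intro v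
      have h1 := e2 v
      have h3 : 0 ≤ s (Sum.inr (Sum.inr (Sum.inl v))) := hs _ (Finset.mem_univ _)
      linarith
    have e4 : t * ∑ j, q j * ℓ j ≤ t * ∑ v, p v := by
      calc t * ∑ j, q j * ℓ j = ∑ j, q j * (t * ℓ j) := by
            rw [Finset.mul_sum]
            exact Finset.sum_congr rfl fun j _ => by ring
        _ ≤ ∑ j, q j * ∑ v, p v * (v.1 j : ℚ) :=
            Finset.sum_le_sum fun j _ => mul_le_mul_of_nonneg_left (e1' j) (hq0 j)
        _ = ∑ v, p v * ∑ j, q j * (v.1 j : ℚ) := by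
            simp only [Finset.mul_sum]
            rw [Finset.sum_comm]
            exact Finset.sum_congr rfl fun v _ => Finset.sum_congr rfl fun j _ => by ring
        _ ≤ ∑ v, p v * t :=
            Finset.sum_le_sum fun v _ => mul_le_mul_of_nonneg_left (e2' v) (hp0 v)
        _ = t * ∑ v, p v := by rw [← Finset.sum_mul, mul_comm]
    have ht00 : t = 0 := by
      by_contra hne
      have htp : 0 < t := lt_of_le_of_ne ht0 (Ne.symm hne)
      have := le_of_mul_le_mul_left e4 htp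
      linarith
    have hq00 : ∀ j, q j = 0 := by
      intro j
      obtain ⟨v, hv, hvj⟩ := hG j
      have h1 := e2' ⟨v, hv⟩
      rw [ht00] at h1
      have h2 : q j * (v j : ℚ) ≤ ∑ j, q j * (v j : ℚ) :=
        Finset.single_le_sum (f := fun j => q j * (v j : ℚ))
          (fun i _ => mul_nonneg (hq0 i) (Nat.cast_nonneg _)) (Finset.mem_univ j)
      have h3 : (0 : ℚ) < v j := by exact_mod_cast Nat.pos_of_ne_zero hvj
      have h4 : q j * (v j : ℚ) ≤ 0 := h2.trans h1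
      by_contra hne
      have h5 : 0 < q j := lt_of_le_of_ne (hq0 j) (Ne.symm hne)
      have := mul_pos h5 h3
      linarith
    have h1 : ∑ j, q j * ℓ j = 0 := Finset.sum_eq_zero fun j _ => by rw [hq00, zero_mul]
    rw [h1] at e3
    have h2 : 0 ≤ ∑ v, p v := Finset.sum_nonneg fun v _ => hp0 v
    linarith

/-- F1b. Weak duality: a pair as in `lp_dual` proves that `y` is a maximizer. -/
theorem mx_of_dual {G : Finset (Fin n →₀ ℕ)} {ℓ y : Fin n → ℚ} {lam : (Fin n →₀ ℕ) → ℚ}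
    (hy : y ∈ Ys G) (h0 : ∀ v ∈ G, 0 ≤ lam v) (h1 : ∀ j, ℓ j ≤ ∑ v ∈ G, lam v * (v j : ℚ))
    (h2 : ∑ v ∈ G, lam v ≤ ∑ j, ℓ j * y j) : Mx G ℓ y := by
  refine ⟨hy, fun y' hy' => ?_⟩
  calc ∑ j, ℓ j * y' j ≤ ∑ j, y' j * ∑ v ∈ G, lam v * (v j : ℚ) := by
        refine Finset.sum_le_sum fun j _ => ?_
        rw [mul_comm]
        exact mul_le_mul_of_nonneg_left (h1 j) (hy'.1 j)
    _ = ∑ v ∈ G, lam v * qd y' v := (sum_qd lam y').symm
    _ ≤ ∑ v ∈ G, lam v := Finset.sum_le_sum fun v hv =>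
        mul_le_of_le_one_right (h0 v hv) (hy'.2 v hv)
    _ ≤ _ := h2

/-- F1c. Complementary slackness for a maximizer: `lp_dual` gives `(y', lam)`; `y'` and `y` have
the same value, so `∑ lam v = ∑ ℓ j * y j`, and all inequalities in
`∑ ℓ j y j ≤ ∑ lam v (y · v) ≤ ∑ lam v` are equalities. -/
theorem dual_of_mx {G : Finset (Fin n →₀ ℕ)} (hG : ∀ j, ∃ v ∈ G, v j ≠ 0) {ℓ y : Fin n → ℚ}
    (hy : Mx G ℓ y) :
    ∃ lam : (Fin n →₀ ℕ) → ℚ, (∀ v ∈ G, 0 ≤ lam v) ∧
      (∀ j, ℓ j ≤ ∑ v ∈ G, lam v * (v j : ℚ)) ∧ ∑ v ∈ G, lam v = ∑ j, ℓ j * y j ∧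
      (∀ v ∈ G, lam v ≠ 0 → qd y v = 1) ∧
      ∀ j, 0 < y j → ∑ v ∈ G, lam v * (v j : ℚ) = ℓ j := by
  obtain ⟨y', lam, hy', h0, h1, h2⟩ := lp_dual G hG ℓ
  have hle : ∑ v ∈ G, lam v ≤ ∑ j, ℓ j * y j := h2.trans (hy.2 y' hy')
  have e1 : ∑ j, ℓ j * y j ≤ ∑ v ∈ G, lam v * qd y v := by
    rw [sum_qd]
    refine Finset.sum_le_sum fun j _ => ?_
    rw [mul_comm]
    exact mul_le_mul_of_nonneg_left (h1 j) (hy.1.1 j)
  have e2 : ∑ v ∈ G, lam v * qd y v ≤ ∑ v ∈ G, lam v :=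
    Finset.sum_le_sum fun v hv => mul_le_of_le_one_right (h0 v hv) (hy.1.2 v hv)
  have heq : ∑ v ∈ G, lam v = ∑ j, ℓ j * y j := le_antisymm hle (e1.trans e2)
  refine ⟨lam, h0, h1, heq, fun v hv hne => ?_, fun j hj => ?_⟩
  · have e3 : ∑ v ∈ G, lam v * (1 - qd y v) = 0 := by
      simp only [mul_sub, mul_one]
      rw [Finset.sum_sub_distrib]
      linarith
    have e4 := (Finset.sum_eq_zero_iff_of_nonneg fun v hv =>
      mul_nonneg (h0 v hv) (sub_nonneg.2 (hy.1.2 v hv))).1 e3 v hv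
    have e5 := (mul_eq_zero.1 e4).resolve_left hne
    linarith
  · have e3 : ∑ j, y j * ((∑ v ∈ G, lam v * (v j : ℚ)) - ℓ j) = 0 := by
      simp only [mul_sub]
      rw [Finset.sum_sub_distrib, ← sum_qd]
      have e6 : ∑ j, y j * ℓ j = ∑ j, ℓ j * y j := Finset.sum_congr rfl fun j _ => mul_comm _ _
      rw [e6]
      linarith
    have e4 := (Finset.sum_eq_zero_iff_of_nonneg fun j _ =>
      mul_nonneg (hy.1.1 j) (sub_nonneg.2 (h1 j))).1 e3 j (Finset.mem_univ j)
    have e5 := (mul_eq_zero.1 e4).resolve_left hj.ne'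
    linarith

/-- F1d. Optimality depends only on the supports: if `y₁` maximizes `ℓ` and `y` has smaller
support and every `v ∈ G` with `y₁ · v = 1` has `y · v = 1`, then `y` maximizes `ℓ`.

Proof.  `dual_of_mx` for `y₁`; the conditions of complementary slackness hold for `y`, so
`∑ lam v = ∑ lam v (y · v) = ∑ ℓ j y j`; `mx_of_dual`. -/
theorem mx_of_supp {G : Finset (Fin n →₀ ℕ)} (hG : ∀ j, ∃ v ∈ G, v j ≠ 0) {ℓ y₁ y : Fin n → ℚ}
    (h₁ : Mx G ℓ y₁) (hy : y ∈ Ys G) (hs : ∀ j, 0 < y j → 0 < y₁ j)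
    (ht : ∀ v ∈ G, qd y₁ v = 1 → qd y v = 1) : Mx G ℓ y := by
  obtain ⟨lam, h0, h1, -, h3, h4⟩ := dual_of_mx hG h₁
  refine mx_of_dual hy h0 h1 (le_of_eq ?_)
  have e1 : ∑ v ∈ G, lam v = ∑ v ∈ G, lam v * qd y v := by
    refine Finset.sum_congr rfl fun v hv => ?_
    by_cases hne : lam v = 0
    · rw [hne, zero_mul]
    · rw [ht v hv (h3 v hv hne), mul_one]
  rw [e1, sum_qd]
  refine Finset.sum_congr rfl fun j _ => ?_
  rcases (hy.1 j).eq_or_lt with h | h
  · rw [← h, zero_mul, mul_zero]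
  · rw [h4 j (hs j h), mul_comm]

/-- F1e. There is a `y` that is optimal for infinitely many perturbations.

Proof.  For every `k ≥ 1` choose a maximizer `y_k` of `ell G k` (`lp_dual`, `mx_of_dual`).  The map
`k ↦ (support of y_k, {v ∈ G : y_k · v = 1})` has a finite range (finsets of a finite type and
subsets of `G`), so some fibre is infinite; `y = y_{k₀}` for some `k₀` in the fibre, `mx_of_supp`. -/
theorem exists_goodY {G : Finset (Fin n →₀ ℕ)} (hG : ∀ j, ∃ v ∈ G, v j ≠ 0) :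
    ∃ y, GoodY G y := by
  classical
  have hex : ∀ k : ℕ, ∃ y, Mx G (ell G k) y := by
    intro k
    obtain ⟨y, lam, h1, h2, h3, h4⟩ := lp_dual G hG (ell G k)
    exact ⟨y, mx_of_dual h1 h2 h3 h4⟩
  choose Y hY using hex
  let φ : ℕ → Finset (Fin n) × {T : Finset (Fin n →₀ ℕ) // T ∈ G.powerset} := fun k =>
    (Finset.univ.filter fun j => 0 < Y k j,
      ⟨G.filter fun v => qd (Y k) v = 1, Finset.mem_powerset.2 (Finset.filter_subset _ _)⟩)
  obtain ⟨b, hb⟩ := Finite.exists_infinite_fiber φ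
  have hinf : (φ ⁻¹' {b}).Infinite := Set.infinite_coe_iff.1 hb
  obtain ⟨k₀, hk₀⟩ := hinf.nonempty
  refine ⟨Y k₀, (hY k₀).1, ?_⟩
  refine (hinf.sdiff (Set.finite_singleton 0)).mono fun k hk => ?_
  obtain ⟨hk1, hk2⟩ := hk
  have hk0 : k ≠ 0 := fun h => hk2 (by rw [h]; rfl)
  refine ⟨Nat.pos_of_ne_zero hk0, ?_⟩
  have heq : φ k = φ k₀ := by
    have h1 : φ k = b := hk1
    have h2 : φ k₀ = b := hk₀
    rw [h1, h2]
  have e1 := congrArg Prod.fst heq
  have e2 := congrArg (fun x => x.2.1) heq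
  simp only [φ] at e1 e2
  refine mx_of_supp hG (hY k) (hY k₀).1 (fun j hj => ?_) fun v hv hqv => ?_
  · have h1 : j ∈ Finset.univ.filter fun j => 0 < Y k j := by
      rw [e1]
      exact Finset.mem_filter.2 ⟨Finset.mem_univ _, hj⟩
    exact (Finset.mem_filter.1 h1).2
  · have h1 : v ∈ G.filter fun v => qd (Y k₀) v = 1 := by
      rw [← e2]
      exact Finset.mem_filter.2 ⟨hv, hqv⟩
    exact (Finset.mem_filter.1 h1).2

end MPb07157F
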