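import Pool.Agent.Lib.MP_b07157_agF.F2b

/-!
# F2. No deficits among the coordinates equal to one
-/

noncomputable section

namespace MPb07157F

open Finset

variable {n : ℕ}

/-- F2a. The relation.  Let `J` be a set of columns that are `≤ 1` in sum on `G`, each not zero on
`ρ`, with a deficit.  Then there are coefficients `t ≥ 0`, not all zero, on `J`, and twins
`τ j` (equal to the column `j` on `ρ`) such that `∑ t j (e_j - e_{τ j})` vanishes on `G`.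

Proof.  Every `v ∈ G` has at most one `j ∈ J` with `v j ≠ 0`, and then `v j = 1`.  For `j ∈ J` let
`n_j = #{v ∈ ρ : v j = 1} ≥ 1` (`hg.one j`); `Js = {j ∈ J : n_j = 1}`.  For `j ∈ Js` with
`v(j) ∈ ρ`: `γ (v(j)) = 1` (`hg.one j`), so `hg.tw j` gives a twin `τ j ≠ j` with `v (τ j) = v j`
for all `v ∈ ρ`; `τ j ∉ J` (`v(j)` has `v_j = v_{τ j} = 1`, sum over `J` at most one).
Let `W = span (onS G J)`, `finrank W ≤ 2 * J.card - 1`.  The vectors `qv v`, `v ∈ ρ`, `v_J ≠ 0`, are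
`∑_{j ∈ J} n_j ≥ 2 * J.card - Js.card` independent vectors in `W` (`hg.lin`), and the forms
`ψ_j = e_j - e_{τ j}` (`j ∈ Js`) vanish on them; so the linear map `W → ℚ^{Js}`, `x ↦ (ψ_j x)_j` has
rank at most `2 * J.card - 1 - (2 * J.card - Js.card) < Js.card`, is not surjective, and there is
`t' ≠ 0` on `Js` with `∑ t'_j ψ_j = 0` on `W`; we may assume that some `t'_j > 0` (sign).  Put
`t = t'^+` (zero outside of `Js`), `h = ∑_{j ∈ J} t_j (e_j - e_{τ j})`.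
`h ≤ 0` on `G`: if `v_J = 0` then `h(v) = -∑ t_j v_{τ j} ≤ 0`.  If `v_i = 1`, `i ∈ J` (then
`v_j = 0` for the other `j ∈ J`): the relation on `W` says `t'_i = ∑_j t'_j v_{τ j}` (`t'_i = 0` if
`i ∉ Js`).  If `t'_i > 0`: `h(v) = t'_i - ∑_{t'_j > 0} t'_j v_{τ j} = ∑_{t'_j < 0} t'_j v_{τ j} ≤ 0`;
otherwise `h(v) = -∑_{t'_j > 0} t'_j v_{τ j} ≤ 0`.  `h = 0` on `ρ` (twins).  So `h = 0` on `G` by
`hg.ri` for `-h`. -/
theorem exists_relation {G ρ : Finset (Fin n →₀ ℕ)} {γ : (Fin n →₀ ℕ) → ℚ} (hg : Good G ρ γ)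
    (J : Finset (Fin n)) (hJ : J.Nonempty) (hJ1 : ∀ v ∈ G, ∑ j ∈ J, v j ≤ 1)
    (hrk : Module.finrank ℚ (Submodule.span ℚ (onS G J)) < 2 * J.card) :
    ∃ (t : Fin n → ℚ) (τ : Fin n → Fin n), (∀ j, 0 ≤ t j) ∧ (∀ j, j ∉ J → t j = 0) ∧
      (∃ j, t j ≠ 0) ∧ (∀ j, t j ≠ 0 → τ j ∉ J ∧ ∃ v ∈ G, v j = 1 ∧ v (τ j) = 1) ∧
      ∀ v ∈ G, ∑ j, t j * ((v j : ℚ) - (v (τ j) : ℚ)) = 0 :=
  exists_relation' hg J hJ1 hrk

/-- F2b. A good `y` with the least number of coordinates equal to one has no deficit among these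
coordinates.

Proof.  Otherwise `exists_relation` for `J`, `y j = 1` on `J` (`∑_{j ∈ J} v j ≤ y · v ≤ 1` for
`v ∈ G`).  `y (τ j) = 0` if `t j ≠ 0` (`v` with `v j = v (τ j) = 1`: `y · v ≥ y j + y (τ j)`,
note `τ j ≠ j`).  Let `h = ∑_j t_j (e_j - e_{τ j})`, `s = 1 / (1 + ∑ t_j)`, `y' = y - s h`.
Coordinates: if `t_j ≠ 0` then `j ∈ J` is not a `τ i` with `t_i ≠ 0`, so `y'_j = 1 - s t_j ∈ [0, 1)`;
if `y_j < 1` then `y'_j = y_j + s * (∑_{τ i = j} t_i)` is `y_j`, or `y_j = 0` and `y'_j < 1`; in all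
cases `0 ≤ y'_j`, and `ones y' ⊂ ones y` strictly.  `y' · v = y · v` for `v ∈ G`, and
`∑ h_j = 0`, `∑_j h_j (∑_{v ∈ G} v_j) = 0`, so `y'` has the same values of all objectives `ell G k`
as `y`, and is again `GoodY`: contradiction. -/
theorem no_deficit {G ρ : Finset (Fin n →₀ ℕ)} {γ : (Fin n →₀ ℕ) → ℚ} (hg : Good G ρ γ)
    {y : Fin n → ℚ} (hy : GoodY G y) (hmin : ∀ y', GoodY G y' → (ones y).card ≤ (ones y').card)
    (J : Finset (Fin n)) (hJ : J ⊆ ones y) (hne : J.Nonempty) :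
    2 * J.card ≤ Module.finrank ℚ (Submodule.span ℚ (onS G J)) :=
  no_deficit' hg hy hmin J hJ

end MPb07157F
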