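import Pool.Agent.Lib.MP_b07157_agF.FD

/-!
# F2a. The relation
-/

noncomputable section

namespace MPb07157F

open Finset

variable {n : ℕ}

theorem qd_form (t : Fin n → ℚ) (τ : Fin n → Fin n) (v : Fin n →₀ ℕ) :
    qd (fun i => ∑ j, t j * ((if i = τ j then 1 else 0) - (if i = j then 1 else 0))) v =
      -∑ j, t j * ((v j : ℚ) - (v (τ j) : ℚ)) := by
  unfold qd
  simp only [Finset.sum_mul]
  rw [Finset.sum_comm, ← Finset.sum_neg_distrib]
  refine Finset.sum_congr rfl fun j _ => ?_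
  have h1 : ∑ i, (if i = τ j then (1 : ℚ) else 0) * (v i : ℚ) = v (τ j) := by
    simp
  have h2 : ∑ i, (if i = j then (1 : ℚ) else 0) * (v i : ℚ) = v j := by
    simp
  calc ∑ i, t j * ((if i = τ j then 1 else 0) - (if i = j then 1 else 0)) * (v i : ℚ)
      = t j * (∑ i, (if i = τ j then (1 : ℚ) else 0) * (v i : ℚ) -
          ∑ i, (if i = j then (1 : ℚ) else 0) * (v i : ℚ)) := by
        rw [← Finset.sum_sub_distrib, Finset.mul_sum]
        exact Finset.sum_congr rfl fun i _ => by ring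
    _ = _ := by rw [h1, h2]; ring

/-- The core: a functional on the span of the exponents that are not zero on `J`. -/
theorem exists_tprime {G ρ : Finset (Fin n →₀ ℕ)} {γ : (Fin n →₀ ℕ) → ℚ} (hg : Good G ρ γ)
    (J Js : Finset (Fin n)) (τ : Fin n → Fin n) (hτ : ∀ j ∈ Js, ∀ v ∈ ρ, v (τ j) = v j)
    (R : Finset (Fin n →₀ ℕ)) (hR : R = ρ.filter fun v => ∃ j ∈ J, v j ≠ 0)
    (hcard : 2 * J.card ≤ R.card + Js.card)
    (hrk : Module.finrank ℚ (Submodule.span ℚ (onS G J)) < 2 * J.card) :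
    ∃ t : Fin n → ℚ, (∀ j, j ∉ Js → t j = 0) ∧ (∃ j, t j ≠ 0) ∧
      ∀ v ∈ G, (∃ j ∈ J, v j ≠ 0) → ∑ j, t j * ((v j : ℚ) - (v (τ j) : ℚ)) = 0 := by
  classical
  set W := Submodule.span ℚ (onS G J) with hW
  let Φ : W →ₗ[ℚ] ({j // j ∈ Js} → ℚ) :=
    { toFun := fun x j => x.1 j.1 - x.1 (τ j.1)
      map_add' := fun x y => by
        funext j
        simp only [Submodule.coe_add, Pi.add_apply]
        ring
      map_smul' := fun c x => by
        funext j
        simp only [Submodule.coe_smul, Pi.smul_apply, smul_eq_mul, RingHom.id_apply]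
        ring }
  -- independent vectors in the kernel
  have hRW : ∀ v ∈ R, qv v ∈ W := by
    intro v hv
    rw [hR, Finset.mem_filter] at hv
    exact Submodule.subset_span ⟨v, hg.sub hv.1, hv.2, rfl⟩
  have hRρ : ∀ v ∈ R, v ∈ ρ := by
    intro v hv
    rw [hR, Finset.mem_filter] at hv
    exact hv.1
  have hRk : ∀ v : {v // v ∈ R}, (⟨qv v.1, hRW v.1 v.2⟩ : W) ∈ LinearMap.ker Φ := by
    intro v
    rw [LinearMap.mem_ker]
    funext j
    show qv v.1 j.1 - qv v.1 (τ j.1) = 0
    unfold qv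
    rw [hτ j.1 j.2 v.1 (hRρ v.1 v.2), sub_self]
  let b : {v // v ∈ R} → LinearMap.ker Φ := fun v => ⟨⟨qv v.1, hRW v.1 v.2⟩, hRk v⟩
  have hb : LinearIndependent ℚ b := by
    refine LinearIndependent.of_comp (W.subtype ∘ₗ (LinearMap.ker Φ).subtype) ?_
    show LinearIndependent ℚ fun v : {v // v ∈ R} => qv v.1
    rw [Fintype.linearIndependent_iff]
    intro g hg0 v
    have h1 : ∀ j, ∑ v : {v // v ∈ R}, g v * (v.1 j : ℚ) = 0 := by
      intro j
      have h2 := congrFun hg0 j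
      simp only [Finset.sum_apply, Pi.smul_apply, smul_eq_mul, Pi.zero_apply] at h2
      exact h2
    have h3 := hg.lin (fun u => if h : u ∈ R then g ⟨u, h⟩ else 0) (fun j => by
      have h4 : ∑ v ∈ ρ, (if h : v ∈ R then g ⟨v, h⟩ else 0) * (v j : ℚ) =
          ∑ v ∈ R, (if h : v ∈ R then g ⟨v, h⟩ else 0) * (v j : ℚ) := by
        symm
        refine Finset.sum_subset (by rw [hR]; exact Finset.filter_subset _ _) fun v _ hv => ?_
        rw [dif_neg hv, zero_mul]
      rw [h4, ← h1 j, ← Finset.sum_coe_sort R]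
      refine Finset.sum_congr rfl fun v _ => ?_
      rw [dif_pos v.2]) v.1 (hRρ v.1 v.2)
    simpa [v.2] using h3
  have hker : R.card ≤ Module.finrank ℚ (LinearMap.ker Φ) := by
    have := hb.fintype_card_le_finrank
    simpa using this
  have hrn := Φ.finrank_range_add_finrank_ker
  have hlt : LinearMap.range Φ < ⊤ := by
    rw [lt_top_iff_ne_top]
    intro htop
    have h1 : Module.finrank ℚ (LinearMap.range Φ) = Js.card := by
      rw [htop, finrank_top]
      simp
    omega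
  obtain ⟨φ, hφ0, hφ⟩ := Submodule.exists_le_ker_of_lt_top _ hlt
  let e : {j // j ∈ Js} → {j // j ∈ Js} → ℚ := fun i j => if i = j then 1 else 0
  have hφe : ∀ x : {j // j ∈ Js} → ℚ, φ x = ∑ j, φ (e j) * x j := by
    intro x
    rw [LinearMap.pi_apply_eq_sum_univ φ x]
    exact Finset.sum_congr rfl fun j _ => mul_comm _ _
  refine ⟨fun j => if h : j ∈ Js then φ (e ⟨j, h⟩) else 0, fun j hj => dif_neg hj, ?_, ?_⟩
  · by_contra hcon
    push Not at hcon
    apply hφ0
    refine LinearMap.ext fun x => ?_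
    rw [hφe, LinearMap.zero_apply]
    refine Finset.sum_eq_zero fun j _ => ?_
    have h1 := hcon j.1
    rw [dif_pos j.2] at h1
    rw [h1, zero_mul]
  · intro v hv hvJ
    have hvW : qv v ∈ W := Submodule.subset_span ⟨v, hv, hvJ, rfl⟩
    have h1 : φ (Φ ⟨qv v, hvW⟩) = 0 := hφ (LinearMap.mem_range_self _ _)
    rw [hφe] at h1
    have h2 : ∑ j, (if h : j ∈ Js then φ (e ⟨j, h⟩) else 0) *
        ((v j : ℚ) - (v (τ j) : ℚ)) = ∑ j ∈ Js, (if h : j ∈ Js then φ (e ⟨j, h⟩) else 0) *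
        ((v j : ℚ) - (v (τ j) : ℚ)) := by
      symm
      refine Finset.sum_subset (Finset.subset_univ _) fun j _ hj => ?_
      rw [dif_neg hj, zero_mul]
    rw [h2, ← Finset.sum_coe_sort Js, ← h1]
    refine Finset.sum_congr rfl fun j _ => ?_
    rw [dif_pos j.2]
    rfl

theorem exists_relation' {G ρ : Finset (Fin n →₀ ℕ)} {γ : (Fin n →₀ ℕ) → ℚ} (hg : Good G ρ γ)
    (J : Finset (Fin n)) (hJ1 : ∀ v ∈ G, ∑ j ∈ J, v j ≤ 1)
    (hrk : Module.finrank ℚ (Submodule.span ℚ (onS G J)) < 2 * J.card) :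
    ∃ (t : Fin n → ℚ) (τ : Fin n → Fin n), (∀ j, 0 ≤ t j) ∧ (∀ j, j ∉ J → t j = 0) ∧
      (∃ j, t j ≠ 0) ∧ (∀ j, t j ≠ 0 → τ j ∉ J ∧ ∃ v ∈ G, v j = 1 ∧ v (τ j) = 1) ∧
      ∀ v ∈ G, ∑ j, t j * ((v j : ℚ) - (v (τ j) : ℚ)) = 0 := by
  classical
  -- elementary facts
  have hle : ∀ v ∈ G, ∀ j ∈ J, v j ≤ 1 := fun v hv j hj =>
    (Finset.single_le_sum (f := fun j => v j) (fun _ _ => Nat.zero_le _) hj).trans (hJ1 v hv)
  have huniq : ∀ v ∈ G, ∀ i ∈ J, ∀ j ∈ J, v i ≠ 0 → v j ≠ 0 → i = j := by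
    intro v hv i hi j hj h1 h2
    by_contra hne
    have h3 : ∑ x ∈ ({i, j} : Finset (Fin n)), v x ≤ ∑ x ∈ J, v x :=
      Finset.sum_le_sum_of_subset (by
        intro x hx
        rcases Finset.mem_insert.1 hx with rfl | hx
        · exact hi
        · rw [Finset.mem_singleton.1 hx]
          exact hj)
    rw [Finset.sum_pair hne] at h3
    have := hJ1 v hv
    omega
  let N : Fin n → Finset (Fin n →₀ ℕ) := fun j => ρ.filter fun v => v j ≠ 0
  have hN : ∀ j, 1 ≤ (N j).card := by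
    intro j
    rw [Nat.one_le_iff_ne_zero, Ne, Finset.card_eq_zero]
    intro h0
    have h1 := hg.one j
    rw [Finset.sum_eq_zero] at h1
    · exact zero_ne_one h1
    · intro v hv
      have h2 : v ∉ N j := by rw [h0]; simp
      have h3 : v j = 0 := by
        by_contra h4
        exact h2 (Finset.mem_filter.2 ⟨hv, h4⟩)
      rw [h3]
      simp
  set Js := J.filter fun j => (N j).card = 1 with hJs
  -- the witness for `j ∈ Js` and the twin
  have htw : ∀ j ∈ Js, (∃ v ∈ ρ, v j = 1) ∧ ∃ j', j' ≠ j ∧ ∀ v ∈ ρ, v j' = v j := by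
    intro j hj
    rw [hJs, Finset.mem_filter] at hj
    obtain ⟨v, hv⟩ := Finset.card_eq_one.1 hj.2
    have hvN : v ∈ N j := by rw [hv]; simp
    obtain ⟨hvρ, hvj⟩ := Finset.mem_filter.1 hvN
    have hv1 : v j = 1 := by
      have := hle v (hg.sub hvρ) j hj.1
      omega
    have hun : ∀ u ∈ ρ, u j ≠ 0 → u = v := by
      intro u hu huj
      have : u ∈ N j := Finset.mem_filter.2 ⟨hu, huj⟩
      rw [hv] at this
      exact Finset.mem_singleton.1 this
    have hγ : γ v = 1 := by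
      have h1 := hg.one j
      rw [Finset.sum_eq_single v] at h1
      · rw [hv1] at h1
        simpa using h1
      · intro u hu hne
        have : u j = 0 := by
          by_contra h
          exact hne (hun u hu h)
        rw [this]
        simp
      · intro h
        exact absurd hvρ h
    refine ⟨⟨v, hvρ, hv1⟩, ?_⟩
    rcases hg.tw j with ⟨u, hu, hu1, hu2⟩ | h
    · exfalso
      have := hun u hu hu2.ne'
      subst this
      exact hu1 0 (by rw [hγ]; simp)
    · exact h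
  choose! hwit τ hτ using htw
  -- counting
  set R := ρ.filter (fun v => ∃ j ∈ J, v j ≠ 0) with hR
  have hRc : R.card = ∑ j ∈ J, (N j).card := by
    have h1 : R = J.biUnion N := by
      ext v
      rw [hR, Finset.mem_filter, Finset.mem_biUnion]
      constructor
      · rintro ⟨hv, j, hj, hvj⟩
        exact ⟨j, hj, Finset.mem_filter.2 ⟨hv, hvj⟩⟩
      · rintro ⟨j, hj, hv⟩
        obtain ⟨h1, h2⟩ := Finset.mem_filter.1 hv
        exact ⟨h1, j, hj, h2⟩
    rw [h1, Finset.card_biUnion]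
    intro i hi j hj hne
    rw [Function.onFun, Finset.disjoint_left]
    intro v hv hv'
    obtain ⟨h1, h2⟩ := Finset.mem_filter.1 hv
    obtain ⟨h3, h4⟩ := Finset.mem_filter.1 hv'
    exact hne (huniq v (hg.sub h1) i hi j hj h2 h4)
  have hcard : 2 * J.card ≤ R.card + Js.card := by
    rw [hRc, hJs, Finset.card_filter, ← Finset.sum_add_distrib, mul_comm, ← smul_eq_mul,
      ← Finset.sum_const]
    refine Finset.sum_le_sum fun j _ => ?_
    have := hN j
    split_ifs with h
    · omega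
    · omega
  obtain ⟨t', ht1, ⟨j₀, hj₀⟩, ht3⟩ := exists_tprime hg J Js τ (fun j hj v hv => (hτ j hj).2 v hv) R hR
    hcard hrk
  -- a positive coefficient
  obtain ⟨t', ht1, ⟨j₀, hj₀⟩, ht3⟩ : ∃ t : Fin n → ℚ, (∀ j, j ∉ Js → t j = 0) ∧ (∃ j, 0 < t j) ∧
      ∀ v ∈ G, (∃ j ∈ J, v j ≠ 0) → ∑ j, t j * ((v j : ℚ) - (v (τ j) : ℚ)) = 0 := by
    rcases lt_or_gt_of_ne hj₀ with h | h
    · refine ⟨fun j => -t' j, fun j hj => by simp [ht1 j hj], ⟨j₀, by simpa using h⟩,
        fun v hv hvJ => ?_⟩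
      have := ht3 v hv hvJ
      rw [← neg_eq_zero, ← Finset.sum_neg_distrib] at this
      rw [← this]
      exact Finset.sum_congr rfl fun j _ => by ring
    · exact ⟨t', ht1, ⟨j₀, h⟩, ht3⟩
  let t : Fin n → ℚ := fun j => max (t' j) 0
  have ht0 : ∀ j, 0 ≤ t j := fun j => le_max_right _ _
  have htJs : ∀ j, t j ≠ 0 → j ∈ Js := by
    intro j hj
    by_contra h
    apply hj
    show max (t' j) 0 = 0
    rw [ht1 j h, max_self]
  have hJsJ : ∀ j ∈ Js, j ∈ J := fun j hj => (Finset.mem_filter.1 hj).1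
  have hneg : ∀ v ∈ G, ∑ j, t j * ((v j : ℚ) - (v (τ j) : ℚ)) ≤ 0 := by
    intro v hv
    by_cases hvJ : ∃ j ∈ J, v j ≠ 0
    · have h1 := ht3 v hv hvJ
      obtain ⟨i, hi, hvi⟩ := hvJ
      have hvi1 : v i = 1 := by
        have := hle v hv i hi
        omega
      have hoth : ∀ j ∈ J, j ≠ i → v j = 0 := by
        intro j hj hne
        by_contra h
        exact hne (huniq v hv j hj i hi h hvi)
      have hs : ∀ s : Fin n → ℚ, (∀ j, j ∉ Js → s j = 0) →
          ∑ j, s j * ((v j : ℚ) - (v (τ j) : ℚ)) = s i - ∑ j, s j * (v (τ j) : ℚ) := by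
        intro s hs
        simp only [mul_sub]
        rw [Finset.sum_sub_distrib, Finset.sum_eq_single i]
        · rw [hvi1]
          simp
        · intro j _ hne
          by_cases hj : j ∈ Js
          · rw [hoth j (hJsJ j hj) hne]
            simp
          · rw [hs j hj, zero_mul]
        · intro h
          exact absurd (Finset.mem_univ _) h
      rw [hs t' ht1] at h1
      rw [hs t (fun j hj => by
        by_contra h
        exact hj (htJs j h))]
      have hle' : ∑ j, t' j * (v (τ j) : ℚ) ≤ ∑ j, t j * (v (τ j) : ℚ) :=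
        Finset.sum_le_sum fun j _ => mul_le_mul_of_nonneg_right (le_max_left _ _) (by positivity)
      rcases le_or_gt (t' i) 0 with h | h
      · have h2 : t i = 0 := max_eq_right h
        have h3 : 0 ≤ ∑ j, t j * (v (τ j) : ℚ) :=
          Finset.sum_nonneg fun j _ => mul_nonneg (ht0 j) (by positivity)
        linarith
      · have h2 : t i = t' i := max_eq_left h.le
        linarith
    · push Not at hvJ
      refine Finset.sum_nonpos fun j _ => ?_
      by_cases hj : t j = 0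
      · rw [hj, zero_mul]
      · rw [hvJ j (hJsJ j (htJs j hj))]
        have h1 : (0 : ℚ) ≤ (v (τ j) : ℚ) := by positivity
        have h2 := ht0 j
        push_cast
        nlinarith
  have hzero : ∀ v ∈ ρ, ∑ j, t j * ((v j : ℚ) - (v (τ j) : ℚ)) = 0 := by
    intro v hv
    refine Finset.sum_eq_zero fun j _ => ?_
    by_cases hj : t j = 0
    · rw [hj, zero_mul]
    · rw [(hτ j (htJs j hj)).2 v hv, sub_self, mul_zero]
  refine ⟨t, τ, ht0, fun j hj => ?_, ⟨j₀, ?_⟩, fun j hj => ?_, fun v hv => ?_⟩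
  · by_contra h
    exact hj (hJsJ j (htJs j h))
  · show max (t' j₀) 0 ≠ 0
    rw [max_eq_left hj₀.le]
    exact hj₀.ne'
  · have hjs := htJs j hj
    obtain ⟨v, hv, hv1⟩ := hwit j hjs
    have hv2 : v (τ j) = 1 := by rw [(hτ j hjs).2 v hv, hv1]
    refine ⟨fun hmem => ?_, v, hg.sub hv, hv1, hv2⟩
    exact (hτ j hjs).1 (huniq v (hg.sub hv) (τ j) hmem j (hJsJ j hjs) (by omega) (by omega))
  · have h1 := hg.ri (fun i => ∑ j, t j * ((if i = τ j then 1 else 0) - (if i = j then 1 else 0)))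
      (fun v hv => by rw [qd_form, hzero v hv, neg_zero])
      (fun v hv => by rw [qd_form]; linarith [hneg v hv]) v hv
    rw [qd_form] at h1
    linarith

end MPb07157F
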