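import Pool.Agent.Lib.MP_b07157_agF.F2a

/-!
# F2b. No deficit
-/

noncomputable section

namespace MPb07157F

open Finset

variable {n : ℕ}

theorem no_deficit' {G ρ : Finset (Fin n →₀ ℕ)} {γ : (Fin n →₀ ℕ) → ℚ} (hg : Good G ρ γ)
    {y : Fin n → ℚ} (hy : GoodY G y) (hmin : ∀ y', GoodY G y' → (ones y).card ≤ (ones y').card)
    (J : Finset (Fin n)) (hJ : J ⊆ ones y) :
    2 * J.card ≤ Module.finrank ℚ (Submodule.span ℚ (onS G J)) := by
  classical
  by_contra hcon
  push Not at hcon
  have hyJ : ∀ j ∈ J, y j = 1 := fun j hj => (Finset.mem_filter.1 (hJ hj)).2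
  obtain ⟨⟨hy0, hyv⟩, hinf⟩ := hy
  have hJ1 : ∀ v ∈ G, ∑ j ∈ J, v j ≤ 1 := by
    intro v hv
    have h1 := hyv v hv
    have h2 : ((∑ j ∈ J, v j : ℕ) : ℚ) ≤ qd y v := by
      unfold qd
      push_cast
      calc ∑ j ∈ J, (v j : ℚ) = ∑ j ∈ J, y j * (v j : ℚ) := by
            refine Finset.sum_congr rfl fun j hj => ?_
            rw [hyJ j hj, one_mul]
        _ ≤ _ := Finset.sum_le_sum_of_subset_of_nonneg (Finset.subset_univ _)
            fun j _ _ => mul_nonneg (hy0 j) (by positivity)
    exact_mod_cast h2.trans h1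
  obtain ⟨t, τ, ht0, htJ, ⟨j₀, hj₀⟩, htτ, hrel⟩ := exists_relation' hg J hJ1 hcon
  have htJ' : ∀ j, t j ≠ 0 → j ∈ J := fun j hj => by
    by_contra h
    exact hj (htJ j h)
  have hyτ : ∀ j, t j ≠ 0 → y (τ j) = 0 := by
    intro j hj
    obtain ⟨h1, v, hv, hv1, hv2⟩ := htτ j hj
    have h2 := hyv v hv
    have hne : j ≠ τ j := fun h => h1 (h ▸ htJ' j hj)
    have h3 : ∑ i ∈ ({j, τ j} : Finset (Fin n)), y i * (v i : ℚ) ≤ qd y v := by
      unfold qd
      exact Finset.sum_le_sum_of_subset_of_nonneg (Finset.subset_univ _)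
        fun i _ _ => mul_nonneg (hy0 i) (by positivity)
    rw [Finset.sum_pair hne, hv1, hv2, hyJ j (htJ' j hj)] at h3
    have h4 := hy0 (τ j)
    push_cast at h3
    linarith
  set T := ∑ j, t j with hT
  have hT0 : 0 ≤ T := Finset.sum_nonneg fun j _ => ht0 j
  set s : ℚ := 1 / (1 + T) with hs
  have hs0 : 0 < s := by positivity
  have hsT : s * T < 1 := by
    rw [hs, div_mul_eq_mul_div, one_mul, div_lt_one (by linarith)]
    linarith
  have htT : ∀ j, t j ≤ T := fun j =>
    Finset.single_le_sum (f := t) (fun i _ => ht0 i) (Finset.mem_univ j)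
  let P : Fin n → ℚ := fun i => ∑ j, t j * (if i = τ j then 1 else 0)
  have hP0 : ∀ i, 0 ≤ P i := fun i => Finset.sum_nonneg fun j _ =>
    mul_nonneg (ht0 j) (by split_ifs <;> norm_num)
  have hPT : ∀ i, P i ≤ T := fun i => Finset.sum_le_sum fun j _ => by
    have := ht0 j
    split_ifs
    · rw [mul_one]
    · rw [mul_zero]
      exact this
  have hPJ : ∀ i ∈ J, P i = 0 := by
    intro i hi
    refine Finset.sum_eq_zero fun j _ => ?_
    by_cases hj : t j = 0
    · rw [hj, zero_mul]
    · rw [if_neg, mul_zero]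
      rintro rfl
      exact (htτ j hj).1 hi
  let g : Fin n → ℚ := fun i => ∑ j, t j * ((if i = τ j then 1 else 0) - (if i = j then 1 else 0))
  have hgP : ∀ i, g i = P i - t i := by
    intro i
    show ∑ j, t j * ((if i = τ j then 1 else 0) - (if i = j then 1 else 0)) = _
    simp only [mul_sub]
    rw [Finset.sum_sub_distrib]
    congr 1
    simp
  have hgv : ∀ v ∈ G, qd g v = 0 := by
    intro v hv
    rw [qd_form t τ v, hrel v hv, neg_zero]
  have hgs : ∑ i, g i = 0 := by
    show ∑ i, ∑ j, t j * ((if i = τ j then 1 else 0) - (if i = j then 1 else 0)) = 0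
    rw [Finset.sum_comm]
    refine Finset.sum_eq_zero fun j _ => ?_
    rw [← Finset.mul_sum, Finset.sum_sub_distrib]
    simp
  let y' : Fin n → ℚ := fun i => y i + s * g i
  have hy'v : ∀ v ∈ G, qd y' v = qd y v := by
    intro v hv
    have h1 : qd y' v = qd y v + s * qd g v := by
      unfold qd
      rw [Finset.mul_sum, ← Finset.sum_add_distrib]
      exact Finset.sum_congr rfl fun i _ => by
        show (y i + s * g i) * _ = _
        ring
    rw [h1, hgv v hv, mul_zero, add_zero]
  have hy'0 : ∀ i, 0 ≤ y' i := by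
    intro i
    show 0 ≤ y i + s * g i
    rw [hgP]
    by_cases hi : t i = 0
    · rw [hi, sub_zero]
      have := hy0 i
      have := mul_nonneg hs0.le (hP0 i)
      linarith
    · rw [hyJ i (htJ' i hi)]
      have h1 := mul_nonneg hs0.le (hP0 i)
      have h2 := mul_le_mul_of_nonneg_left (htT i) hs0.le
      rw [mul_sub]
      linarith
  have hgood : GoodY G y' := by
    refine ⟨⟨hy'0, fun v hv => by rw [hy'v v hv]; exact hyv v hv⟩, ?_⟩
    refine hinf.mono ?_
    rintro k ⟨hk, hm⟩
    refine ⟨hk, ⟨hy'0, fun v hv => by rw [hy'v v hv]; exact hyv v hv⟩, fun z hz => ?_⟩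
    have h1 : ∑ j, ell G k j * y' j = ∑ j, ell G k j * y j := by
      have h2 : ∑ j, ell G k j * g j = 0 := by
        have h3 : ∀ j, ell G k j * g j = g j - (∑ v ∈ G, g j * (v j : ℚ)) / k := by
          intro j
          unfold ell
          rw [← Finset.mul_sum]
          ring
        rw [Finset.sum_congr rfl fun j _ => h3 j, Finset.sum_sub_distrib, hgs,
          ← Finset.sum_div, Finset.sum_comm]
        have h5 : ∑ v ∈ G, ∑ x, g x * (v x : ℚ) = 0 := Finset.sum_eq_zero fun v hv => hgv v hv
        rw [h5]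
        simp
      have h3 : ∀ j, ell G k j * y' j = ell G k j * y j + s * (ell G k j * g j) := fun j => by
        show _ * (y j + s * g j) = _
        ring
      rw [Finset.sum_congr rfl fun j _ => h3 j, Finset.sum_add_distrib, ← Finset.mul_sum, h2,
        mul_zero, add_zero]
    rw [h1]
    exact hm.2 z hz
  have hlt : (ones y').card < (ones y).card := by
    refine Finset.card_lt_card ⟨fun i hi => ?_, fun hsub => ?_⟩
    · have hi1 : y i + s * g i = 1 := (Finset.mem_filter.1 hi).2
      refine Finset.mem_filter.2 ⟨Finset.mem_univ _, ?_⟩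
      by_contra hne
      have hti : t i = 0 := by
        by_contra h
        exact hne (hyJ i (htJ' i h))
      rw [hgP, hti, sub_zero] at hi1
      by_cases hPi : P i = 0
      · rw [hPi, mul_zero, add_zero] at hi1
        exact hne hi1
      · obtain ⟨j, hj⟩ : ∃ j, t j * (if i = τ j then (1 : ℚ) else 0) ≠ 0 := by
          by_contra hcon
          push Not at hcon
          exact hPi (Finset.sum_eq_zero fun j _ => hcon j)
        have hj1 : t j ≠ 0 := left_ne_zero_of_mul hj
        have hj2 : i = τ j := by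
          by_contra h
          rw [if_neg h, mul_zero] at hj
          exact hj rfl
        rw [hj2, hyτ j hj1, zero_add, ← hj2] at hi1
        have := mul_le_mul_of_nonneg_left (hPT i) hs0.le
        linarith
    · have h1 := hJ (htJ' j₀ hj₀)
      have h2 := (Finset.mem_filter.1 (hsub h1)).2
      have h3 : y j₀ + s * g j₀ = 1 := h2
      rw [hgP, hPJ j₀ (htJ' j₀ hj₀), hyJ j₀ (htJ' j₀ hj₀)] at h3
      have h4 : 0 < t j₀ := lt_of_le_of_ne (ht0 j₀) (Ne.symm hj₀)
      have := mul_pos hs0 h4
      linarith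
  exact absurd (hmin y' hgood) (not_le.2 hlt)

end MPb07157F
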