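import Pool.Agent.Lib.MP_b07157_agF.F1
import Pool.Agent.Lib.MP_b07157_agF.F2

/-!
# F3. The choice of `y` and `a`
-/

noncomputable section

namespace MPb07157F

open Finset

variable {n : ℕ}

/-- The condition holds for all sufficiently small positive `t`. -/
def Small (P : ℚ → Prop) : Prop := ∃ τ : ℚ, 0 < τ ∧ ∀ t, 0 < t → t < τ → P t

theorem Small.and {P Q : ℚ → Prop} (hP : Small P) (hQ : Small Q) : Small fun t => P t ∧ Q t := by
  obtain ⟨a, ha, h1⟩ := hP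
  obtain ⟨b, hb, h2⟩ := hQ
  exact ⟨min a b, lt_min ha hb, fun t ht0 ht => ⟨h1 t ht0 (ht.trans_le (min_le_left _ _)),
    h2 t ht0 (ht.trans_le (min_le_right _ _))⟩⟩

theorem Small.finset {ι : Type} [DecidableEq ι] (S : Finset ι) {P : ι → ℚ → Prop}
    (h : ∀ i ∈ S, Small (P i)) : Small fun t => ∀ i ∈ S, P i t := by
  induction S using Finset.induction_on with
  | empty => exact ⟨1, one_pos, fun t _ _ i hi => absurd hi (Finset.notMem_empty i)⟩
  | insert i S hi ih =>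
    obtain ⟨τ, hτ, h1⟩ := (h i (Finset.mem_insert_self i S)).and
      (ih fun j hj => h j (Finset.mem_insert_of_mem hj))
    refine ⟨τ, hτ, fun t ht0 ht j hj => ?_⟩
    rcases Finset.mem_insert.1 hj with rfl | hj
    · exact (h1 t ht0 ht).1
    · exact (h1 t ht0 ht).2 j hj

theorem Small.exists {P : ℚ → Prop} (h : Small P) : ∃ t, 0 < t ∧ t < 1 ∧ P t := by
  obtain ⟨τ, hτ, h1⟩ := h
  have h2 : 0 < min τ 1 / 2 := by
    have : 0 < min τ 1 := lt_min hτ one_pos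
    linarith
  have h3 : min τ 1 / 2 < min τ 1 := by linarith
  exact ⟨min τ 1 / 2, h2, h3.trans_le (min_le_right _ _), h1 _ h2 (h3.trans_le (min_le_left _ _))⟩

/-- Affine functions that are positive at zero are positive for small `t`. -/
theorem small_affine {c : ℚ} (hc : 0 < c) (d : ℚ) : Small fun t => 0 < c + t * d := by
  have h1 : 0 < 1 + |d| := by positivity
  refine ⟨c / (1 + |d|), div_pos hc h1, fun t ht0 ht => ?_⟩
  rw [lt_div_iff₀ h1] at ht
  have h2 : -(t * |d|) ≤ t * d := by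
    have := mul_le_mul_of_nonneg_left (neg_abs_le d) ht0.le
    linarith
  have h3 : 0 ≤ t * |d| := by positivity
  nlinarith

/-- A nonconstant affine function is not integral for small `t`. -/
theorem small_nonint (A : ℚ) {B : ℚ} (hB : B ≠ 0) : Small fun t => ∀ z : ℤ, A + t * B ≠ z := by
  rcases lt_or_gt_of_ne hB with hneg | hpos
  · have h0 : 0 < A - (⌈A⌉ - 1 : ℤ) := by
      have := Int.ceil_lt_add_one A
      push_cast
      linarith
    obtain ⟨τ, hτ, h1⟩ := small_affine h0 B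
    refine ⟨τ, hτ, fun t ht0 ht z hz => ?_⟩
    have h2 := h1 t ht0 ht
    have h3 : t * B < 0 := mul_neg_of_pos_of_neg ht0 hneg
    have h4 : (z : ℚ) < A := by rw [← hz]; linarith
    have h5 : ((⌈A⌉ - 1 : ℤ) : ℚ) < z := by rw [← hz]; linarith
    have h6 : ⌈A⌉ - 1 < z := by exact_mod_cast h5
    have h7 : ⌈A⌉ ≤ z := by omega
    have h8 : (A : ℚ) ≤ z := Int.ceil_le.1 h7
    linarith
  · have h0 : 0 < ((⌊A⌋ + 1 : ℤ) : ℚ) - A := by
      have := Int.lt_floor_add_one A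
      push_cast
      linarith
    obtain ⟨τ, hτ, h1⟩ := small_affine h0 (-B)
    refine ⟨τ, hτ, fun t ht0 ht z hz => ?_⟩
    have h2 := h1 t ht0 ht
    have h3 : 0 < t * B := mul_pos ht0 hpos
    have h4 : A < z := by rw [← hz]; linarith
    have h5 : (z : ℚ) < (⌊A⌋ + 1 : ℤ) := by
      rw [← hz]
      have : t * -B = -(t * B) := by ring
      linarith
    have h6 : z < ⌊A⌋ + 1 := by exact_mod_cast h5
    have h7 : z ≤ ⌊A⌋ := by omega
    have h8 : (z : ℚ) ≤ A := Int.le_floor.1 h7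
    linarith

/-- F3. Main theorem of part F.

`a = ∑ α v * v`.  Proof.  Every column is not zero on `G` (`hg.one`).  Let `y` be `GoodY` with the
least `(ones y).card` (`exists_goodY`); `no_deficit` gives the last statement.  For `k` in the
infinite set of `GoodY` let `lam` be as in `dual_of_mx` (for `ell G k`) and
`α₀ v = lam v + 1 / k > 0`: `a₀ = ∑ α₀ v * v` has `a₀ j = ∑ lam v * v j + (∑ v j) / k ≥ 1`, with
equality if `y j > 0`.  `∑ α₀ v - ∑ y j = (1 / k) ∑_{v ∈ G} (1 - y · v) ≤ G.card / k` (from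
`∑ lam v = ∑ ell_j y_j`), so for `k` large the inequalities on `∑ α₀ v - ∑ y j` hold.  Now
`α_t v = (1 - t) α₀ v + t γ v` (`γ v` only for `v ∈ ρ`): `a_t = (1 - t) a₀ + t · 1`
(`hg.one`), which is `≥ 1`, `= 1` where `a₀ = 1`.  For all sufficiently small `t > 0` the strict
inequalities (`0 < α_t v`, and the bounds) still hold, and for every `h ∈ H`:
`h(a_t) = h(a₀) + t (h(1) - h(a₀))` is constant if `h(a₀) = h(1)`, otherwise it is not an integer
for small `t > 0`. -/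
theorem exists_ya {G ρ : Finset (Fin n →₀ ℕ)} {γ : (Fin n →₀ ℕ) → ℚ} (hg : Good G ρ γ)
    (H : Finset (Fin n → ℤ)) :
    ∃ (y : Fin n → ℚ) (α : (Fin n →₀ ℕ) → ℚ), (∀ v ∈ G, 0 < α v) ∧
      (∀ j, 1 ≤ ∑ v ∈ G, α v * (v j : ℚ)) ∧
      (∀ j, 0 < y j → ∑ v ∈ G, α v * (v j : ℚ) = 1) ∧
      (∀ j, 0 ≤ y j) ∧ (∀ v ∈ G, qd y v ≤ 1) ∧
      ∑ v ∈ G, α v - ∑ j, y j < 1 ∧
      (∀ j, y j < 1 → ∑ v ∈ G, α v - ∑ j, y j < 1 - y j) ∧
      (∀ h ∈ H, ∑ v ∈ G, α v * (zd h v : ℚ) = ∑ j, (h j : ℚ) ∨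
        ∀ z : ℤ, ∑ v ∈ G, α v * (zd h v : ℚ) ≠ z) ∧
      ∀ J : Finset (Fin n), (∀ j ∈ J, y j = 1) → J.Nonempty →
        2 * J.card ≤ Module.finrank ℚ (Submodule.span ℚ (onS G J)) := by
  classical
  have hcol : ∀ j, ∃ v ∈ G, v j ≠ 0 := by
    intro j
    by_contra hcon
    push Not at hcon
    have h1 := hg.one j
    rw [Finset.sum_eq_zero fun v hv => by rw [hcon v (hg.sub hv)]; simp] at h1
    exact absurd h1 (by norm_num)
  -- the minimal good `y`
  obtain ⟨y, hy, hmin⟩ : ∃ y, GoodY G y ∧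
      ∀ y', GoodY G y' → (ones y).card ≤ (ones y').card := by
    have hne : ∃ m, ∃ y, GoodY G y ∧ (ones y).card = m := by
      obtain ⟨y, hy⟩ := exists_goodY hcol
      exact ⟨_, y, hy, rfl⟩
    obtain ⟨y, hy, hm⟩ := Nat.find_spec hne
    refine ⟨y, hy, fun y' hy' => ?_⟩
    rw [hm]
    exact Nat.find_min' hne ⟨y', hy', rfl⟩
  have hyY := hy.1
  -- a threshold for `k`
  obtain ⟨ε, hε0, -, hε1, hε⟩ : ∃ ε : ℚ, 0 < ε ∧ ε < 1 ∧ ε < 1 ∧ ∀ j, y j < 1 → ε < 1 - y j := by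
    have h1 : Small fun t => ∀ j ∈ (Finset.univ : Finset (Fin n)), y j < 1 → t < 1 - y j := by
      refine Small.finset _ fun j _ => ?_
      by_cases hj : y j < 1
      · exact ⟨1 - y j, sub_pos.2 hj, fun t _ ht _ => ht⟩
      · exact ⟨1, one_pos, fun t _ _ h => absurd h hj⟩
    obtain ⟨t, h2, h3, h4⟩ := h1.exists
    exact ⟨t, h2, h3, h3, fun j hj => h4 j (Finset.mem_univ j) hj⟩
  obtain ⟨K, hK⟩ := exists_nat_gt ((G.card : ℚ) / ε)
  obtain ⟨k, hk, hKk⟩ := hy.2.exists_gt K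
  obtain ⟨hk0, hmx⟩ := hk
  have hkq : (0 : ℚ) < k := by exact_mod_cast hk0
  obtain ⟨lam, hlam0, hlam1, hlam2, -, hlam4⟩ := dual_of_mx hcol hmx
  let α₀ : (Fin n →₀ ℕ) → ℚ := fun v => lam v + 1 / k
  have hα₀ : ∀ v ∈ G, 0 < α₀ v := fun v hv =>
    add_pos_of_nonneg_of_pos (hlam0 v hv) (div_pos one_pos hkq)
  have ha₀ : ∀ j, ∑ v ∈ G, α₀ v * (v j : ℚ) =
      ∑ v ∈ G, lam v * (v j : ℚ) + (∑ v ∈ G, (v j : ℚ)) / k := by
    intro j
    simp only [α₀, add_mul]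
    rw [Finset.sum_add_distrib, Finset.sum_div]
    congr 1
    exact Finset.sum_congr rfl fun v _ => by ring
  have ha₀1 : ∀ j, 1 ≤ ∑ v ∈ G, α₀ v * (v j : ℚ) := by
    intro j
    have h1 := hlam1 j
    unfold ell at h1
    rw [ha₀]
    linarith
  have ha₀2 : ∀ j, 0 < y j → ∑ v ∈ G, α₀ v * (v j : ℚ) = 1 := by
    intro j hj
    have h1 := hlam4 j hj
    unfold ell at h1
    rw [ha₀, h1]
    ring
  have hD : ∑ v ∈ G, α₀ v - ∑ j, y j < ε := by
    have e1 : ∑ v ∈ G, α₀ v = ∑ v ∈ G, lam v + (G.card : ℚ) / k := by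
      simp only [α₀]
      rw [Finset.sum_add_distrib, Finset.sum_const, nsmul_eq_mul]
      ring
    have e2 : ∑ v ∈ G, lam v ≤ ∑ j, y j := by
      rw [hlam2]
      refine Finset.sum_le_sum fun j _ => ?_
      unfold ell
      have h1 : 0 ≤ (∑ v ∈ G, (v j : ℚ)) / k :=
        div_nonneg (Finset.sum_nonneg fun v _ => Nat.cast_nonneg _) hkq.le
      have h2 := hyY.1 j
      nlinarith
    have e3 : (G.card : ℚ) / k < ε := by
      rw [div_lt_iff₀ hkq]
      rw [div_lt_iff₀ hε0] at hK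
      have h1 : (K : ℚ) < k := by exact_mod_cast hKk
      nlinarith
    rw [e1]
    linarith
  -- the perturbation
  let γ' : (Fin n →₀ ℕ) → ℚ := fun v => if v ∈ ρ then γ v else 0
  have hγ' : ∀ F : (Fin n →₀ ℕ) → ℚ, ∑ v ∈ G, γ' v * F v = ∑ v ∈ ρ, γ v * F v := by
    intro F
    rw [← Finset.sum_subset hg.sub fun v _ hv => by simp only [γ']; rw [if_neg hv, zero_mul]]
    exact Finset.sum_congr rfl fun v hv => by simp only [γ']; rw [if_pos hv]
  have hγone : ∀ j, ∑ v ∈ G, γ' v * (v j : ℚ) = 1 := fun j => by rw [hγ', hg.one j]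
  have hγh : ∀ h : Fin n → ℤ, ∑ v ∈ G, γ' v * (zd h v : ℚ) = ∑ j, (h j : ℚ) := by
    intro h
    have h1 : ∀ v : Fin n →₀ ℕ, (zd h v : ℚ) = ∑ j, (h j : ℚ) * (v j : ℚ) := by
      intro v
      unfold zd
      push_cast
      rfl
    simp only [h1, Finset.mul_sum]
    rw [Finset.sum_comm]
    refine Finset.sum_congr rfl fun j _ => ?_
    have h2 : ∑ v ∈ G, γ' v * ((h j : ℚ) * (v j : ℚ)) = (h j : ℚ) * ∑ v ∈ G, γ' v * (v j : ℚ) := by
      rw [Finset.mul_sum]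
      exact Finset.sum_congr rfl fun v _ => by ring
    rw [h2, hγone, mul_one]
  have hcomb : ∀ (t : ℚ) (F : (Fin n →₀ ℕ) → ℚ), ∑ v ∈ G, ((1 - t) * α₀ v + t * γ' v) * F v =
      (1 - t) * ∑ v ∈ G, α₀ v * F v + t * ∑ v ∈ G, γ' v * F v := by
    intro t F
    rw [Finset.mul_sum, Finset.mul_sum, ← Finset.sum_add_distrib]
    exact Finset.sum_congr rfl fun v _ => by ring
  have hcomb1 : ∀ t : ℚ, ∑ v ∈ G, ((1 - t) * α₀ v + t * γ' v) =
      ∑ v ∈ G, α₀ v + t * (∑ v ∈ G, γ' v - ∑ v ∈ G, α₀ v) := by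
    intro t
    rw [Finset.sum_add_distrib, ← Finset.mul_sum, ← Finset.mul_sum]
    ring
  set Sα := ∑ v ∈ G, α₀ v with hSα
  set Sγ := ∑ v ∈ G, γ' v with hSγ
  set Sy := ∑ j, y j with hSy
  -- the conditions for small `t`
  have c1 : Small fun t => ∀ v ∈ G, 0 < α₀ v + t * (γ' v - α₀ v) :=
    Small.finset _ fun v hv => small_affine (hα₀ v hv) _
  have c2 : Small fun t => 0 < (1 - (Sα - Sy)) + t * (Sα - Sγ) :=
    small_affine (by linarith) _
  have c3 : Small fun t => ∀ j ∈ (Finset.univ : Finset (Fin n)), y j < 1 →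
      0 < (1 - y j - (Sα - Sy)) + t * (Sα - Sγ) := by
    refine Small.finset _ fun j _ => ?_
    by_cases hj : y j < 1
    · obtain ⟨τ, hτ, h1⟩ := small_affine (c := 1 - y j - (Sα - Sy)) (by
        have := hε j hj
        linarith) (Sα - Sγ)
      exact ⟨τ, hτ, fun t h2 h3 _ => h1 t h2 h3⟩
    · exact ⟨1, one_pos, fun t _ _ h => absurd h hj⟩
  have c4 : Small fun t => ∀ h ∈ H, ∑ v ∈ G, ((1 - t) * α₀ v + t * γ' v) * (zd h v : ℚ) =
      ∑ j, (h j : ℚ) ∨ ∀ z : ℤ, ∑ v ∈ G, ((1 - t) * α₀ v + t * γ' v) * (zd h v : ℚ) ≠ z := by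
    refine Small.finset _ fun h _ => ?_
    by_cases heq : ∑ j, (h j : ℚ) - ∑ v ∈ G, α₀ v * (zd h v : ℚ) = 0
    · refine ⟨1, one_pos, fun t _ _ => Or.inl ?_⟩
      rw [hcomb, hγh]
      have : ∑ v ∈ G, α₀ v * (zd h v : ℚ) = ∑ j, (h j : ℚ) := by linarith
      rw [this]
      ring
    · obtain ⟨τ, hτ, h1⟩ := small_nonint (∑ v ∈ G, α₀ v * (zd h v : ℚ)) heq
      refine ⟨τ, hτ, fun t ht0 ht => Or.inr fun z hz => h1 t ht0 ht z ?_⟩
      rw [← hz, hcomb, hγh]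
      ring
  obtain ⟨t, ht0, ht1, d1, d2, d3, d4⟩ := (c1.and (c2.and (c3.and c4))).exists
  refine ⟨y, fun v => (1 - t) * α₀ v + t * γ' v, fun v hv => ?_, fun j => ?_, fun j hj => ?_,
    hyY.1, hyY.2, ?_, fun j hj => ?_, d4, fun J hJ hne => ?_⟩
  · have := d1 v hv
    linarith
  · rw [hcomb, hγone]
    have := ha₀1 j
    nlinarith
  · rw [hcomb, hγone, ha₀2 j hj]
    ring
  · rw [hcomb1]
    linarith
  · have := d3 j (Finset.mem_univ j) hj
    rw [hcomb1]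
    linarith
  · exact no_deficit hg hy hmin J (fun j hj => Finset.mem_filter.2 ⟨Finset.mem_univ _, hJ j hj⟩)
      hne

end MPb07157F
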