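import Pool.Agent.Lib.MP_b07157_agF.Defs

/-!
# Definitions for part F: the linear program
-/

noncomputable section

namespace MPb07157F

open Finset

variable {n : ℕ}

/-- The polytope `y ≥ 0`, `y · v ≤ 1` for `v ∈ G`. -/
def Ys (G : Finset (Fin n →₀ ℕ)) : Set (Fin n → ℚ) :=
  {y | (∀ j, 0 ≤ y j) ∧ ∀ v ∈ G, qd y v ≤ 1}

/-- `y` maximizes the objective `ℓ` on `Ys G`. -/
def Mx (G : Finset (Fin n →₀ ℕ)) (ℓ y : Fin n → ℚ) : Prop :=
  y ∈ Ys G ∧ ∀ y' ∈ Ys G, ∑ j, ℓ j * y' j ≤ ∑ j, ℓ j * y j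

/-- The perturbed objective. -/
def ell (G : Finset (Fin n →₀ ℕ)) (k : ℕ) : Fin n → ℚ := fun j => 1 - (∑ v ∈ G, (v j : ℚ)) / k

/-- `y` is optimal for infinitely many perturbations. -/
def GoodY (G : Finset (Fin n →₀ ℕ)) (y : Fin n → ℚ) : Prop :=
  y ∈ Ys G ∧ {k : ℕ | 0 < k ∧ Mx G (ell G k) y}.Infinite

/-- The coordinates equal to one. -/
def ones (y : Fin n → ℚ) : Finset (Fin n) := Finset.univ.filter fun j => y j = 1

end MPb07157F
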