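import Mathlib

/-!
# G1. Rado's theorem for vectors
-/

noncomputable section

namespace MPb07157F

open Finset

/-- G1. Rado's theorem: a family of finite sets of vectors has a linearly independent transversal if
for every subfamily the rank of the union is at least the number of members.

Proof.  Induction on `∑ k, (X k).card`.  If all `X k` have exactly one element, the hypothesis for
`I = univ` says that the vectors are independent (rank of `κ` vectors is at least `card κ`:
`linearIndependent_iff_card_eq_finrank_span` / `linearIndependent_of_top_le_span_of_card_eq_finrank`).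
`X k` is not empty by the hypothesis for `{k}`.  If some `X k` has two different elements `x, y`,
one of them can be removed from `X k`: otherwise there are `I₁, I₂` not containing `k` with
`rank (⋃ I₁ ∪ X k \ {x}) ≤ I₁.card`, `rank (⋃ I₂ ∪ X k \ {y}) ≤ I₂.card` (the violating subfamily
must contain `k`); by submodularity of the rank (`Submodule.finrank_sup_add_finrank_inf_eq`),
`rank (⋃ (I₁ ∪ I₂ ∪ {k})) + rank (⋃ (I₁ ∩ I₂)) ≤ I₁.card + I₂.card`, while the hypothesis gives
`≥ (I₁ ∪ I₂).card + 1 + (I₁ ∩ I₂).card`. -/
theorem rado {ι κ : Type} [DecidableEq ι] [Fintype κ] [DecidableEq κ] {W : Type} [AddCommGroup W]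
    [Module ℚ W] (e : ι → W) (X : κ → Finset ι)
    (h : ∀ I : Finset κ, I.card ≤ Module.finrank ℚ
      (Submodule.span ℚ (e '' ((I.biUnion X : Finset ι) : Set ι)))) :
    ∃ s : κ → ι, (∀ k, s k ∈ X k) ∧ LinearIndependent ℚ fun k => e (s k) := by
  sorry

end MPb07157F
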