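import Mathlib

/-!
# G2. Hensel's lemma for underdetermined systems
-/

noncomputable section

namespace MPb07157F

open Finset PowerSeries

/-- G2. Let `H_i(x) = ∑_{v ∈ G i} a i v(s) x^v` (`i ∈ κ`) be polynomials in `n` variables over
`k⟦s⟧`; suppose that for `s = 0` the point `x = (1, …, 1)` is a common zero with linearly independent
differentials.  Then there is a common zero in `(1 + s k⟦s⟧)^n`.

Proof.  Let `A` be the matrix `A i l = ∑_v a i v(0) * v l`; its rows are independent, so there is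
a right inverse `B` (`A * B = 1`; e.g. `Matrix.exists_right_inverse_iff…`, or dual vectors).  Newton
iteration `x⁰ = 1`, `x^{k+1} = x^k - B H(x^k)` (entries of `B` are constants): claim
`s^{k+1} ∣ H_i(x^k)`, `s^{k+1} ∣ x^{k+1} - x^k`.  Taylor: `H(x - δ) = H(x) - H'(x) δ + O(δ²)` with
`H'(x)_{i l} = ∂H_i/∂x_l ≡ A i l` modulo `s` (since `x ≡ 1`), and `δ = B H(x^k)` is divisible by
`s^{k+1}`, so `H(x^{k+1}) ≡ H(x^k) - A B H(x^k) = 0` modulo `s^{k+2}`.  Then
`x l = PowerSeries.mk fun k => coeff k (x^k l)`; `x ≡ x^k` modulo `s^{k+1}`, so `H_i(x)` is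
divisible by every power of `s`. -/
theorem hensel_units {k : Type} [Field k] {n : ℕ} {κ : Type} [Fintype κ] [DecidableEq κ]
    (G : κ → Finset (Fin n →₀ ℕ)) (a : κ → (Fin n →₀ ℕ) → PowerSeries k)
    (h0 : ∀ i, ∑ v ∈ G i, constantCoeff (a i v) = 0)
    (hJ : LinearIndependent k fun i : κ => fun l : Fin n =>
      ∑ v ∈ G i, constantCoeff (a i v) * (v l : k)) :
    ∃ x : Fin n → PowerSeries k, (∀ l, constantCoeff (x l) = 1) ∧
      ∀ i, ∑ v ∈ G i, a i v * ∏ l, x l ^ v l = 0 := by
  sorry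

end MPb07157F
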