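import Mathlib
import Pool.Agent.Lib.MP_b07157_ag.LC.Farkas

/-!
# G3. Gordan's theorem for ordered groups
-/

noncomputable section

namespace MPb07157F

open Finset

/-- G3. A finite set of sign conditions on integral vectors that is satisfied by a homomorphism to
a linearly ordered commutative group (with zero, multiplicative notation; `χ l` is a unit) is also
satisfied by an integral form.

Proof.  `MPb07157.LC.farkas_aff` (affine Farkas, `h = -1` on `P`, `0` on `E`) in `W = Fin n → ℚ`:
either there is a rational form `u` with `u e = 0` on `E` and `u p ≥ 1` on `P` (multiply by a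
common denominator), or there are rational `s p ≥ 0` (`p ∈ P`), not all zero, `s e` (`e ∈ E`) with
`∑ s p • p + ∑ s e • e = 0`; clear denominators: integers; apply `χ`: `∏ (χ p)^{s p} = 1`, but
every `χ p < 1` and some `s p > 0`: contradiction. -/
theorem gordan {n : ℕ} {Γ : Type} [LinearOrderedCommGroupWithZero Γ]
    (χ : Multiplicative (Fin n → ℤ) →* Γˣ) (E P : Finset (Fin n → ℤ))
    (hE : ∀ e ∈ E, χ (Multiplicative.ofAdd e) = 1)
    (hP : ∀ p ∈ P, ((χ (Multiplicative.ofAdd p) : Γˣ) : Γ) < 1) :
    ∃ ω : Fin n → ℤ, (∀ e ∈ E, ∑ j, ω j * e j = 0) ∧ ∀ p ∈ P, 0 < ∑ j, ω j * p j := by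
  sorry

end MPb07157F
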