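import Pool.Agent.Lib.MP_b07157_agF.G4a
import Pool.Agent.Lib.MP_b07157_agF.G2

/-!
# G4b. A zero of a face system gives a zero of the system
-/

noncomputable section

namespace MPb07157F

open Finset

variable {n : ℕ}

/-- G4b. If the face system has a zero in the torus then the system has a zero in the torus.

Proof.  `G4a` and `hensel_units` (with `κ = {i // i ∈ J1}`,
`a i v = C (c v * ∏ ξ_j ^ v_j) * X ^ (ω(v) - m_i)`, `m_i = min ω` on `Gi G i`; the exponent is `≥ 0`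
and zero exactly on the face; the matrix of `hensel_units` is the one of `G4a`) give
`x ∈ (1 + s ℂ⟦s⟧)^n`.  Then `X_l ↦ ξ_l s^{ω_l} x_l` is a zero of all
`g_i = ∑_{v ∈ Gi G i} c_v X^v` with invertible coordinates in `LaurentSeries ℂ` (a field:
`s = single 1 1`, `s^{ω_l} = single ω_l 1`).  If the system had no zero in the torus over `ℂ` then
by the Nullstellensatz (`MvPolynomial.vanishingIdeal_zeroLocus_eq_radical`, as in
`MPb07157.GN.nullst` of `MP_b07157_ag/GN/Main.lean`) a power of `∏ X_j` lies in the ideal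
`(g_i : i ∈ J1)`; the evaluation at the zero in `LaurentSeries ℂ` gives a contradiction. -/
theorem zero_of_face_zero (G : Finset (Fin n →₀ ℕ)) (c : (Fin n →₀ ℕ) → ℂ) (nd : NDf G c)
    (J1 : Finset (Fin n)) (hJ1 : ∀ v ∈ G, ∑ j ∈ J1, v j ≤ 1)
    (hne : ∀ i ∈ J1, (Gi G i).Nonempty) (ω : Fin n → ℤ) (ξ : Fin n → ℂ) (hξ : ∀ j, ξ j ≠ 0)
    (hz : ∀ i ∈ J1, ev (Gif G ω i) c ξ = 0) :
    ∃ ξ' : Fin n → ℂ, (∀ j, ξ' j ≠ 0) ∧ ∀ i ∈ J1, ev (Gi G i) c ξ' = 0 := by
  sorry

end MPb07157F
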