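import Pool.Agent.Lib.MP_b07157_agF.GD
import Pool.Agent.Lib.MP_b07157_agF.G3

/-!
# G4c. Specialization by a valuation ring
-/

noncomputable section

namespace MPb07157F

open Finset

variable {n : ℕ}

/-- G4c. A solution in the torus over a valued field `L` for a deformation of the system gives a
solution of a face system over `ℂ`.

Proof.  `χ l = valuation of x^l` (`l ∈ ℤ^n`, values in the units of the value group).  For
`i ∈ J1` choose `v₀ = v₀(i) ∈ Gi G i` with maximal `χ(v₀)`.  `gordan` with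
`E = {v - v₀ : v ∈ Gi G i, χ(v) = χ(v₀), i ∈ J1}`, `P = {v - v₀ : χ(v) < χ(v₀)}` gives `ω` with
`Gif G ω i = {v ∈ Gi G i : χ(v) = χ(v₀)}`.  Suppose the face system of `ω` has no zero in the torus;
the Nullstellensatz (see `MPb07157.GN.nullst` in `MP_b07157_ag/GN/Main.lean`) gives `N` and
`q i : MvPolynomial (Fin n) ℂ` with `(∏ X_j) ^ N = ∑_{i ∈ J1} q i * g_i^ω`.  Let `κ` be the residue
field of `𝒪` and `π : MvPolynomial (Fin n) ℂ →+ κ` with `π(b X^u) = res(φ b) * res(x^{u - N·1})` if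
`x^{u - N·1}` has valuation one and `0` otherwise.  Then `π(X^u * g_i^ω) = 0` for all `u`: all
`x^v`, `v` in the face, have the same valuation; if `x^{u - N + v}` has valuation one then
`π(X^u g_i^ω) = res(x^{u - N + v₀}) * ∑_v res(φ c_v) res(x^{v - v₀}) = 0` (reduction of the
equation `hz` divided by `x^{v₀}`; the terms outside of the face are in the maximal ideal).  So
`π((∏ X_j)^N) = 0`, but it is `1`. -/
theorem face_zero_of_valued (G : Finset (Fin n →₀ ℕ)) (c : (Fin n →₀ ℕ) → ℂ)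
    (J1 : Finset (Fin n)) (hne : ∀ i ∈ J1, (Gi G i).Nonempty) {L : Type} [Field L]
    (𝒪 : ValuationSubring L) (φ : ℂ →+* 𝒪) (x : Fin n → L) (hx : ∀ l, x l ≠ 0)
    (a : (Fin n →₀ ℕ) → 𝒪) (ha : ∀ v ∈ G, a v - φ (c v) ∈ IsLocalRing.maximalIdeal 𝒪)
    (hz : ∀ i ∈ J1, ∑ v ∈ Gi G i, (a v : L) * ∏ l, x l ^ v l = 0) :
    ∃ (ω : Fin n → ℤ) (ξ : Fin n → ℂ), (∀ j, ξ j ≠ 0) ∧ ∀ i ∈ J1, ev (Gif G ω i) c ξ = 0 := by
  sorry

end MPb07157F
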