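import Mathlib

/-!
# G4d. A valuation ring of the Laurent series that dominates `ℂ[T]_(T)`, `T = 1 - X`
-/

noncomputable section

namespace MPb07157F

/-- G4d. There is a valuation subring `𝒪` of `LaurentSeries ℂ` that contains `ℂ` and such that
`1 - X` is in its maximal ideal.

Proof.  `Ideal.image_subset_nonunits_valuationSubring` for the subring `A` = the range of
`ℂ[T] → LaurentSeries ℂ`, `T ↦ 1 - X` (injective: `ℂ[T] → ℂ[X]`, `T ↦ 1 - X`, is injective and
`ℂ[X] → ℂ⟦X⟧ → LaurentSeries ℂ` is injective), and the ideal generated by `1 - X`, which is not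
the unit ideal (`(T)` is not the unit ideal of `ℂ[T]`). -/
theorem exists_valring : ∃ 𝒪 : ValuationSubring (LaurentSeries ℂ),
    (∀ z : ℂ, (HahnSeries.C z : LaurentSeries ℂ) ∈ 𝒪) ∧
      ((1 - PowerSeries.X : PowerSeries ℂ) : LaurentSeries ℂ) ∈ 𝒪.nonunits := by
  sorry

end MPb07157F
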