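import Pool.Agent.Lib.MP_b07157_agF.G1
import Pool.Agent.Lib.MP_b07157_agF.G4b
import Pool.Agent.Lib.MP_b07157_agF.G4c
import Pool.Agent.Lib.MP_b07157_agF.G4d

/-!
# G4. A non-degenerate system without deficits has a zero in the torus
-/

noncomputable section

namespace MPb07157F

open Finset

variable {n : ℕ}

/-- G4. Main theorem of part G.

Proof.  `Gi G i` is not empty for `i ∈ J1` (`hrk {i}`: the rank is at least 2; `v i ≤ 1` on `G`, so
`v i ≠ 0` means `v i = 1`).  `rado` for the family indexed by `J1 × Bool`, `X (i, _) = Gi G i`,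
`e = qv` (a subfamily `I` projects to `J ⊆ J1` with `I.card ≤ 2 * J.card`, and `qv` of the union of
the sets is `onS G J`) gives `v i, v' i` in `Gi G i` (`i ∈ J1`), all `2 * J1.card` vectors
independent.  Let `c1 (v' i) = 1`, `c1 (v i) = -1`, `c1 = 0` otherwise (the `Gi G i` are disjoint),
and over `ℂ⟦X⟧` let `a v = C (c1 v) + X * C (c v - c1 v)`.  At `X = 0` the system
`∑_{v ∈ Gi G i} a v x^v` is `x^{v' i} - x^{v i}`: at `x = 1` it is zero, with the differentials
`v' i - v i`, which are independent (over `ℚ`, hence over `ℂ`).  `hensel_units` gives a zero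
`x ∈ ℂ⟦X⟧^n` with constant terms `1`.  In `LaurentSeries ℂ` with `𝒪` of `exists_valring`:
`a v = c v - (1 - X) * (c v - c1 v) ≡ c v` modulo the maximal ideal; `face_zero_of_valued`, then
`zero_of_face_zero`.  Finally `evθ G c i ξ = ev (Gi G i) c ξ` for `i ∈ J1` as `v i ≤ 1`. -/
theorem torus_zero (G : Finset (Fin n →₀ ℕ)) (c : (Fin n →₀ ℕ) → ℂ) (nd : NDf G c)
    (J1 : Finset (Fin n)) (hJ1 : ∀ v ∈ G, ∑ j ∈ J1, v j ≤ 1)
    (hrk : ∀ J ⊆ J1, J.Nonempty → 2 * J.card ≤ Module.finrank ℚ (Submodule.span ℚ (onS G J))) :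
    ∃ ξ : Fin n → ℂ, (∀ j, ξ j ≠ 0) ∧ ∀ i ∈ J1, evθ G c i ξ = 0 := by
  sorry

end MPb07157F
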