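import Pool.Agent.Lib.MP_b07157_agF.GD

/-!
# G4a. Independent differentials at a zero of a face system
-/

noncomputable section

namespace MPb07157F

open Finset

variable {n : ℕ}

/-- G4a. Non-degeneracy: at a common zero in the torus of the face system the differentials are
linearly independent.

Proof.  Let `∑_{i ∈ J1} t_i dg_i = 0`, `t ≠ 0`, `T = {i ∈ J1 : t_i ≠ 0}`, `m_i = min ω` on `Gi G i`.
Take `ω' = ω - ∑_{i ∈ T} (m_i + M) e_i` with `M` large.  For `v ∈ Gi G i`, `i ∈ T`, `v_j = 0` for the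
other `j ∈ T` (as `∑_{J1} v ≤ 1`), so `ω'(v) = ω(v) - m_i - M ≥ -M`, with equality iff
`v ∈ Gif G ω i`; if `v_T = 0` then `ω'(v) = ω(v) > -M`.  So `fc G ω'` is the disjoint union of the
`Gif G ω i`, `i ∈ T`.  Let `ξ'_i = t_i ξ_i` for `i ∈ T`, `ξ'_j = ξ_j` otherwise; since every exponent
of `Gif G ω i` has `v_i = 1` and `v_j = 0` for the other `j ∈ T`,
`ev (fc G ω') c ξ' = ∑_{i ∈ T} t_i * ev (Gif G ω i) c ξ = 0` and
`evθ (fc G ω') c l ξ' = ∑_{i ∈ T} t_i * evθ (Gif G ω i) c l ξ = 0` for all `l`: contradiction to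
`NDf`. -/
theorem face_indep (G : Finset (Fin n →₀ ℕ)) (c : (Fin n →₀ ℕ) → ℂ) (nd : NDf G c)
    (J1 : Finset (Fin n)) (hJ1 : ∀ v ∈ G, ∑ j ∈ J1, v j ≤ 1)
    (hne : ∀ i ∈ J1, (Gi G i).Nonempty) (ω : Fin n → ℤ) (ξ : Fin n → ℂ) (hξ : ∀ j, ξ j ≠ 0)
    (hz : ∀ i ∈ J1, ev (Gif G ω i) c ξ = 0) :
    LinearIndependent ℂ fun i : {i // i ∈ J1} => fun l : Fin n => evθ (Gif G ω i.1) c l ξ := by
  sorry

end MPb07157F
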