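import Pool.Agent.Lib.MP_b07157_agF.Defs

/-!
# Definitions for part G: the subsystem linear in the variables of `J1`
-/

noncomputable section

namespace MPb07157F

open Finset

variable {n : ℕ}

/-- The part of `G` that is linear in `x_i`. -/
def Gi (G : Finset (Fin n →₀ ℕ)) (i : Fin n) : Finset (Fin n →₀ ℕ) := G.filter fun v => v i = 1

/-- The face of `Gi G i` on which `ω` is minimal. -/
def Gif (G : Finset (Fin n →₀ ℕ)) (ω : Fin n → ℤ) (i : Fin n) : Finset (Fin n →₀ ℕ) :=
  fc (Gi G i) ω

end MPb07157F
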